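import Pool.Agent.Lib.MP_deca50_lc.Even.Core
import Pool.Agent.Lib.MP_deca50_lc.Even.Exist

/-! The MDS conjecture for linear codes over fields of even order, as a complete list of the
parameters of linear codes attaining the Joshi (Singleton) bound. -/

namespace Pool.Agent.Variants.MP_deca50_lc.LinearEven

open Pool.Agent.Lib.MP_deca50_lc.Even

theorem result (F : Type) [Field F] [Fintype F] [DecidableEq F] (hF : Even (Fintype.card F))
    (n d : ℕ) (hd : 1 ≤ d) (hdn : d ≤ n) :
    (∃ C : Submodule F (Fin n → F), Nat.card C = Fintype.card F ^ (n - d + 1) ∧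
      IsLeast {w : ℕ | ∃ x ∈ C, ∃ y ∈ C, x ≠ y ∧ hammingDist x y = w} d) ↔
    (d = 1 ∨ d = 2 ∨ d = n ∨ n ≤ Fintype.card F + 1 ∨
      (n = Fintype.card F + 2 ∧ (d = 4 ∨ d = Fintype.card F))) := by
  rw [MDS_iff hd hdn]
  have hq : 1 < Fintype.card F := Fintype.one_lt_card
  constructor
  · intro h
    by_cases h1 : 2 ≤ n - d + 1 ∧ n - d + 1 + 2 ≤ n
    · have := upper_of_core hF (core hF) h h1.1 h1.2
      omega
    · omega
  · rintro (h | h | h | h | ⟨h, h' | h'⟩)
    · have : n - d + 1 = n := by omega
      rw [this]; exact MDS_self n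
    · have : n - d + 1 = n - 1 := by omega
      rw [this]; exact (MDS_one (by omega)).dual (by omega)
    · have : n - d + 1 = 1 := by omega
      rw [this]; exact MDS_one (by omega)
    · exact MDS_rs (by omega) (by omega) h
    · have : n - d + 1 = Fintype.card F + 2 - 3 := by omega
      rw [this, h]; exact (MDS_hyperoval hF).dual (by omega)
    · have : n - d + 1 = 3 := by omega
      rw [this, h]; exact MDS_hyperoval hF

end Pool.Agent.Variants.MP_deca50_lc.LinearEven
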